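import Pool.Agent.V11316.CubT4

/-!
# Vanishing of a central-binomial Lucas sum modulo `p`

If `13` is a square modulo the prime `p > 3`, then `p` divides `∑_{k ≤ (p-1)/2} C(2k,k)² U_k(11,1)`.
The proof is a cubic transformation, modulo `p`, of the truncated series `∑ C(2k,k)² t^k / 16^k`,
at the point `3 + √13`.
-/

set_option autoImplicit false

namespace Pool.Agent.Results.MP_c87117_nt.LucasVanishing

open Finset

/-- the Lucas sequence `U_n(11,1)` -/
def U : ℕ → ℤ
  | 0 => 0
  | 1 => 1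
  | (n + 2) => 11 * U (n + 1) - U n

/-- `S(p) = ∑_{k=0}^{(p-1)/2} C(2k,k)² U_k(11,1)` -/
def S (p : ℕ) : ℤ := ∑ k ∈ range ((p - 1) / 2 + 1), (((2 * k).choose k : ℕ) : ℤ) ^ 2 * U k

/-- `C(2k,k) = (-4)^k C((p-1)/2, k)` modulo `p = 2n+1` -/
theorem central (p n k : ℕ) [Fact p.Prime] (hn : p = 2 * n + 1) (hk : k ≤ n) :
    (((2 * k).choose k : ℕ) : ZMod p) = (-4) ^ k * (n.choose k : ZMod p) := by
  induction k with
  | zero => simp
  | succ k ih =>
    have ih := ih (by omega)
    have hk1 : ((k + 1 : ℕ) : ZMod p) ≠ 0 := by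
      rw [Ne, ZMod.natCast_eq_zero_iff]
      intro h
      have := Nat.le_of_dvd (by omega) h
      omega
    have h1 : (k + 1) * (2 * (k + 1)).choose (k + 1) = 2 * (2 * k + 1) * (2 * k).choose k := by
      have := Nat.succ_mul_centralBinom_succ k
      simpa [Nat.centralBinom] using this
    have h2 : n.choose (k + 1) * (k + 1) = n.choose k * (n - k) := Nat.choose_succ_right_eq n k
    have h1' : ((k + 1 : ℕ) : ZMod p) * (((2 * (k + 1)).choose (k + 1) : ℕ) : ZMod p) =
        2 * (2 * k + 1) * (((2 * k).choose k : ℕ) : ZMod p) := by exact_mod_cast congrArg (Nat.cast (R := ZMod p)) h1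
    have h2' : (n.choose (k + 1) : ZMod p) * ((k + 1 : ℕ) : ZMod p) = (n.choose k : ZMod p) * ((n : ZMod p) - k) := by
      have := congrArg (Nat.cast (R := ZMod p)) h2
      rw [Nat.cast_mul, Nat.cast_mul, Nat.cast_sub (by omega)] at this
      exact this
    have h3 : (2 * n + 1 : ZMod p) = 0 := by
      have h3 : ((2 * n + 1 : ℕ) : ZMod p) = 0 := by
        rw [ZMod.natCast_eq_zero_iff, ← hn]
      exact_mod_cast h3
    apply mul_left_cancel₀ hk1
    rw [h1', ih]
    rw [pow_succ]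
    linear_combination (-(-4) ^ k * (-4)) * h2' + 2 * (-4) ^ k * (n.choose k : ZMod p) * h3

theorem sq13 (r : ℕ) (h : r ∈ ({1, 3, 4, 9, 10, 12} : Finset ℕ)) : IsSquare ((r : ℕ) : ZMod 13) := by
  simp only [Finset.mem_insert, Finset.mem_singleton] at h
  rcases h with rfl | rfl | rfl | rfl | rfl | rfl
  · exact ⟨1, by decide⟩
  · exact ⟨4, by decide⟩
  · exact ⟨2, by decide⟩
  · exact ⟨3, by decide⟩
  · exact ⟨6, by decide⟩
  · exact ⟨5, by decide⟩

theorem lucas_closed (p : ℕ) [Fact p.Prime] (s : ZMod p) (hs : s ^ 2 = 13) (h2 : (2 : ZMod p) ≠ 0) (k : ℕ) :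
    3 * s * ((U k : ℤ) : ZMod p) = ((11 + 3 * s) / 2) ^ k - ((11 - 3 * s) / 2) ^ k := by
  induction k using Nat.strong_induction_on with
  | _ k ih =>
    match k with
    | 0 => simp [U]
    | 1 => simp only [U, pow_one]; field_simp; push_cast; ring
    | (m + 2) =>
      have i0 := ih m (by omega)
      have i1 := ih (m + 1) (by omega)
      have e1 : ((11 + 3 * s) / 2) ^ 2 = 11 * ((11 + 3 * s) / 2) - 1 := by
        field_simp
        linear_combination 9 * hs
      have e2 : ((11 - 3 * s) / 2) ^ 2 = 11 * ((11 - 3 * s) / 2) - 1 := by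
        field_simp
        linear_combination 9 * hs
      rw [U, pow_add _ m 2, pow_add _ m 2, e1, e2]
      push_cast
      linear_combination 11 * i1 - i0

/-- For every prime `p > 3` with `p ≡ 1, 3, 4, 9, 10, 12 (mod 13)`, `p` divides `S(p)`. -/
theorem result : ∀ p : ℕ, p.Prime → 3 < p → p % 13 ∈ ({1, 3, 4, 9, 10, 12} : Finset ℕ) →
    (p : ℤ) ∣ S p := by
  intro p hp h3 hmod
  have : Fact p.Prime := ⟨hp⟩
  have : Fact (Nat.Prime 13) := ⟨by norm_num⟩
  have hodd : p % 2 = 1 := by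
    rcases hp.eq_two_or_odd with h | h
    · omega
    · exact h
  obtain ⟨n, hn⟩ : ∃ n, p = 2 * n + 1 := ⟨p / 2, by omega⟩
  -- the square root of 13
  have hsq : IsSquare ((13 : ℕ) : ZMod p) := by
    rw [← ZMod.exists_sq_eq_prime_iff_of_mod_four_eq_one (p := 13) (q := p) (by norm_num) (by omega)]
    have e : ((p : ℕ) : ZMod 13) = ((p % 13 : ℕ) : ZMod 13) := by rw [ZMod.natCast_mod]
    rw [e]
    exact sq13 _ hmod
  obtain ⟨s, hs⟩ := hsq
  have hs : s ^ 2 = 13 := by rw [pow_two, ← hs]; norm_num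
  have hne : ∀ q : ℕ, q.Prime → q ≠ p → (q : ZMod p) ≠ 0 := by
    intro q hq hqp h
    rw [ZMod.natCast_eq_zero_iff] at h
    exact hqp ((Nat.prime_dvd_prime_iff_eq hp hq).1 h).symm
  have h20 : (2 : ZMod p) ≠ 0 := by exact_mod_cast hne 2 (by norm_num) (by omega)
  have h30 : (3 : ZMod p) ≠ 0 := by exact_mod_cast hne 3 (by norm_num) (by omega)
  have h130 : (13 : ZMod p) ≠ 0 := by
    have hp13 : 13 ≠ p := by
      intro h
      rw [← h] at hmod
      simp at hmod
    exact_mod_cast hne 13 (by norm_num) hp13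
  have hs0 : s ≠ 0 := by
    intro h
    rw [h] at hs
    apply h130
    rw [← hs]
    ring
  have hx : (1 + 2 * (3 + s)) ≠ 0 := by
    intro h
    apply h30
    linear_combination (2 * s - 7) * h - 4 * hs
  have key := Pool.Agent.V11316.CubT.H_eq (p := p) (by omega) n hn (3 + s) hx
  have e1 : (3 + s) ^ 3 * (2 + (3 + s)) / (1 + 2 * (3 + s)) = 16 * ((11 + 3 * s) / 2) := by
    have h8 : 16 * ((11 + 3 * s) / 2) = 8 * (11 + 3 * s) := by field_simp; ring
    rw [div_eq_iff hx, h8]
    linear_combination (s ^ 2 + 14 * s + 37) * hs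
  have e2 : (3 + s) * (2 + (3 + s)) ^ 3 / (1 + 2 * (3 + s)) ^ 3 = 16 * ((11 - 3 * s) / 2) := by
    have h8 : 16 * ((11 - 3 * s) / 2) = 8 * (11 - 3 * s) := by field_simp; ring
    rw [div_eq_iff (pow_ne_zero _ hx), h8]
    linear_combination (193 * s ^ 2 + 1330 * s + 2293) * hs
  rw [e1, e2] at key
  have hH : ∀ t : ZMod p, Pool.Agent.V11316.CubT.H n (16 * t) =
      ∑ k ∈ range (n + 1), (((2 * k).choose k : ℕ) : ZMod p) ^ 2 * t ^ k := by
    intro t
    rw [Pool.Agent.V11316.CubT.H]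
    refine Finset.sum_congr rfl fun k hk => ?_
    have hk' : k ≤ n := by simpa [Nat.lt_succ_iff] using hk
    rw [central p n k hn hk', mul_pow, mul_pow, ← pow_mul]
    have : (16 : ZMod p) ^ k = (-4) ^ (k * 2) := by
      rw [mul_comm k 2, pow_mul]
      norm_num
    rw [this]
    ring
  rw [hH, hH] at key
  rw [← ZMod.intCast_zmod_eq_zero_iff_dvd] 
  have hfin : 3 * s * ((S p : ℤ) : ZMod p) = 0 := by
    have hn' : (p - 1) / 2 = n := by omega
    rw [S, hn']
    push_cast
    rw [Finset.mul_sum]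
    rw [← sub_eq_zero, ← Finset.sum_sub_distrib] at key
    rw [← key]
    refine Finset.sum_congr rfl fun k _ => ?_
    have := lucas_closed p s hs h20 k
    linear_combination (((2 * k).choose k : ℕ) : ZMod p) ^ 2 * this
  rcases mul_eq_zero.1 hfin with h | h
  · exact absurd h (mul_ne_zero h30 hs0)
  · exact h

end Pool.Agent.Results.MP_c87117_nt.LucasVanishing
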